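import Mathlib

set_option autoImplicit false

namespace Pool.Agent.Results.MP_742338_co.AdmissibleShortest

variable {V : Type} [DecidableEq V]

/-- A loopy multigraph on the vertex set `V` is a finite multiset of unordered pairs
(a pair `s(v,v)` is a loop). The degree of `v` is the number of half-edges at `v`. -/
def degree (G : Multiset (Sym2 V)) (v : V) : ℕ :=
  (G.map fun e => e.toMultiset.count v).sum

/-- The edge type `e` is simple in `G`: not a loop, and of multiplicity one. -/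
def SimpleEdge (G : Multiset (Sym2 V)) (e : Sym2 V) : Prop :=
  ¬ e.IsDiag ∧ G.count e = 1

/-- All edges of `G` are simple. -/
def IsSimple (G : Multiset (Sym2 V)) : Prop := ∀ e ∈ G, SimpleEdge G e

/-- The degrees of `G` (with multiplicity) are the degrees of some finite simple graph. -/
def GraphicalDegrees [Fintype V] (G : Multiset (Sym2 V)) : Prop :=
  ∃ (W : Type) (_ : Fintype W) (H : SimpleGraph W) (_ : DecidableRel H.Adj),
    Finset.univ.val.map (fun w => H.degree w) = Finset.univ.val.map (degree G)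

/-- `G'` arises from `G` by the double edge swap `(a,b)(c,d)`. -/
def Swap (G G' : Multiset (Sym2 V)) (a b c d : V) : Prop :=
  ∃ R : Multiset (Sym2 V), G = s(a, b) ::ₘ s(c, d) ::ₘ R ∧ G' = s(b, c) ::ₘ s(d, a) ::ₘ R

/-- One double edge swap of any kind. -/
def AnyStep (G G' : Multiset (Sym2 V)) : Prop := ∃ a b c d, Swap G G' a b c d

/-- One admissible swap: the removed edges share no vertex and are not both simple in `G`. -/
def AdmissibleStep (G G' : Multiset (Sym2 V)) : Prop :=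
  ∃ a b c d, Swap G G' a b c d ∧ (a ≠ c ∧ a ≠ d ∧ b ≠ c ∧ b ≠ d) ∧
    ¬ (SimpleEdge G s(a, b) ∧ SimpleEdge G s(c, d))

/-- `Route r n G G'`: one passes from `G` to `G'` in exactly `n` steps of the relation `r`. -/
def Route {α : Type} (r : α → α → Prop) : ℕ → α → α → Prop
  | 0, G, G' => G = G'
  | n + 1, G, G' => ∃ G₁, r G G₁ ∧ Route r n G₁ G'

omit [DecidableEq V] in
theorem cons_eq_cons_cases {a b : Sym2 V} {R S : Multiset (Sym2 V)} (h : a ::ₘ R = b ::ₘ S) :
    (a = b ∧ R = S) ∨ ∃ T, R = b ::ₘ T ∧ S = a ::ₘ T := by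
  rcases Multiset.cons_eq_cons.mp h with h | ⟨_, T, h1, h2⟩
  · exact Or.inl h
  · exact Or.inr ⟨T, h1, h2⟩

theorem exchange (n : ℕ) : ∀ (G G' : Multiset (Sym2 V)) (h : Sym2 V),
    Route AnyStep n G G' → G'.count h < G.count h →
    ∃ (u v x y : V) (G₁ : Multiset (Sym2 V)) (m : ℕ), n = m + 1 ∧ h = s(u, v) ∧
      Swap G G₁ u v x y ∧ Route AnyStep m G₁ G' := by
  induction n with
  | zero =>
    intro G G' h hr hc
    have : G = G' := hr
    subst this
    exact absurd hc (lt_irrefl _)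
  | succ n ih =>
    rintro G G' h ⟨G₁, ⟨a, b, c, d, R, hG, hG₁⟩, hr⟩ hc
    by_cases h1 : h = s(a, b)
    · exact ⟨a, b, c, d, G₁, n, rfl, h1, ⟨R, hG, hG₁⟩, hr⟩
    by_cases h2 : h = s(c, d)
    · exact ⟨c, d, a, b, G₁, n, rfl, h2,
        ⟨R, hG.trans (Multiset.cons_swap _ _ _), hG₁.trans (Multiset.cons_swap _ _ _)⟩, hr⟩
    have hcR : G.count h = R.count h := by
      rw [hG, Multiset.count_cons_of_ne h1, Multiset.count_cons_of_ne h2]
    have hle : R.count h ≤ G₁.count h := by
      rw [hG₁]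
      exact Multiset.count_le_of_le _ ((Multiset.le_cons_self _ _).trans (Multiset.le_cons_self _ _))
    have hmem : h ∈ R := Multiset.one_le_count_iff_mem.mp (by omega)
    obtain ⟨R₀, hR₀⟩ := Multiset.exists_cons_of_mem hmem
    obtain ⟨u, v, x, y, G₂, m, hn, hh, ⟨R', hG₁', hG₂⟩, hr'⟩ := ih G₁ G' h hr (by omega)
    subst hh hn hR₀
    have key : s(b, c) ::ₘ s(d, a) ::ₘ R₀ = s(x, y) ::ₘ R' := by
      have : s(u, v) ::ₘ s(b, c) ::ₘ s(d, a) ::ₘ R₀ = s(u, v) ::ₘ s(x, y) ::ₘ R' := by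
        rw [← hG₁', hG₁]
        simp only [← Multiset.singleton_add]; abel
      exact (Multiset.cons_inj_right _).mp this
    rcases cons_eq_cons_cases key with ⟨e1, e2⟩ | ⟨T, e1, e2⟩
    · subst e2
      rcases Sym2.eq_iff.mp e1 with ⟨rfl, rfl⟩ | ⟨rfl, rfl⟩
      · refine ⟨u, v, b, a, s(v, b) ::ₘ s(a, u) ::ₘ s(c, d) ::ₘ R₀, m + 1, rfl, rfl,
          ⟨s(c, d) ::ₘ R₀, ?_, rfl⟩, G₂, ⟨a, u, c, d, s(v, b) ::ₘ R₀, ?_, ?_⟩, hr'⟩
        · rw [hG, Sym2.eq_swap (a := b) (b := a)]
          simp only [← Multiset.singleton_add]; abel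
        · simp only [← Multiset.singleton_add]; abel
        · rw [hG₂, Sym2.eq_swap (a := u) (b := c)]
          simp only [← Multiset.singleton_add]; abel
      · refine ⟨u, v, c, d, s(v, c) ::ₘ s(d, u) ::ₘ s(a, b) ::ₘ R₀, m + 1, rfl, rfl,
          ⟨s(a, b) ::ₘ R₀, ?_, rfl⟩, G₂, ⟨d, u, b, a, s(v, c) ::ₘ R₀, ?_, ?_⟩, hr'⟩
        · rw [hG]
          simp only [← Multiset.singleton_add]; abel
        · rw [Sym2.eq_swap (a := b) (b := a)]
          simp only [← Multiset.singleton_add]; abel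
        · rw [hG₂, Sym2.eq_swap (a := u) (b := b), Sym2.eq_swap (a := a) (b := d)]
          simp only [← Multiset.singleton_add]; abel
    · subst e2
      rcases cons_eq_cons_cases e1 with ⟨e3, e4⟩ | ⟨T', e3, e4⟩
      · subst e4
        rcases Sym2.eq_iff.mp e3 with ⟨rfl, rfl⟩ | ⟨rfl, rfl⟩
        · refine ⟨u, v, d, c, s(v, d) ::ₘ s(c, u) ::ₘ s(a, b) ::ₘ R₀, m + 1, rfl, rfl,
            ⟨s(a, b) ::ₘ R₀, ?_, rfl⟩, G₂, ⟨c, u, a, b, s(v, d) ::ₘ R₀, ?_, ?_⟩, hr'⟩
          · rw [hG, Sym2.eq_swap (a := d) (b := c)]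
            simp only [← Multiset.singleton_add]; abel
          · simp only [← Multiset.singleton_add]; abel
          · rw [hG₂, Sym2.eq_swap (a := u) (b := a)]
            simp only [← Multiset.singleton_add]; abel
        · refine ⟨u, v, a, b, s(v, a) ::ₘ s(b, u) ::ₘ s(c, d) ::ₘ R₀, m + 1, rfl, rfl,
            ⟨s(c, d) ::ₘ R₀, ?_, rfl⟩, G₂, ⟨b, u, d, c, s(v, a) ::ₘ R₀, ?_, ?_⟩, hr'⟩
          · rw [hG]
            simp only [← Multiset.singleton_add]; abel
          · rw [Sym2.eq_swap (a := d) (b := c)]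
            simp only [← Multiset.singleton_add]; abel
          · rw [hG₂, Sym2.eq_swap (a := u) (b := d), Sym2.eq_swap (a := c) (b := b)]
            simp only [← Multiset.singleton_add]; abel
      · subst e3 e4
        refine ⟨u, v, x, y, s(v, x) ::ₘ s(y, u) ::ₘ s(a, b) ::ₘ s(c, d) ::ₘ T', m + 1, rfl, rfl,
          ⟨s(a, b) ::ₘ s(c, d) ::ₘ T', ?_, rfl⟩, G₂,
          ⟨a, b, c, d, s(v, x) ::ₘ s(y, u) ::ₘ T', ?_, ?_⟩, hr'⟩
        · rw [hG]
          simp only [← Multiset.singleton_add]; abel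
        · simp only [← Multiset.singleton_add]; abel
        · rw [hG₂]
          simp only [← Multiset.singleton_add]; abel

theorem count_lt {G G' : Multiset (Sym2 V)} {h : Sym2 V} (hs : IsSimple G') (hm : h ∈ G)
    (hn : ¬ SimpleEdge G h) : G'.count h < G.count h := by
  have h1 : 1 ≤ G.count h := Multiset.one_le_count_iff_mem.mpr hm
  by_cases hm' : h ∈ G'
  · obtain ⟨h2, h3⟩ := hs h hm'
    have : G.count h ≠ 1 := fun e => hn ⟨h2, e⟩
    omega
  · rw [Multiset.count_eq_zero_of_notMem hm']; omega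

theorem loop_case (d : ℕ) (G G₁ G' : Multiset (Sym2 V)) (u v x : V) (hs : IsSimple G')
    (hmin : ∀ m, Route AnyStep m G G' → d + 1 ≤ m) (hsw : Swap G G₁ u v x u)
    (hr : Route AnyStep d G₁ G') :
    ∃ (p q : V) (G₃ : Multiset (Sym2 V)), Swap G G₃ v u p q ∧
      (v ≠ p ∧ v ≠ q ∧ u ≠ p ∧ u ≠ q) ∧ Route AnyStep d G₃ G' := by
  obtain ⟨R, hG, hG₁⟩ := hsw
  have hc : G'.count s(u, u) < G₁.count s(u, u) := by
    apply count_lt hs
    · rw [hG₁]; simp
    · intro h; exact h.1 (by simp)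
  obtain ⟨u₁, u₂, p, q, G₂, m, hd, hh, ⟨R', hG₁', hG₂⟩, hr'⟩ := exchange d G₁ G' _ hr hc
  obtain ⟨rfl, rfl⟩ : u = u₁ ∧ u = u₂ := by
    rcases Sym2.eq_iff.mp hh with h | h
    · exact h
    · exact ⟨h.2, h.1⟩
  subst hd
  have key : s(v, x) ::ₘ R = s(p, q) ::ₘ R' := by
    have : s(u, u) ::ₘ s(v, x) ::ₘ R = s(u, u) ::ₘ s(p, q) ::ₘ R' := by
      rw [← hG₁', hG₁, Multiset.cons_swap]
    exact (Multiset.cons_inj_right _).mp this
  have hGG₁ : AnyStep G G₁ := ⟨u, v, x, u, R, hG, hG₁⟩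
  rcases cons_eq_cons_cases key with ⟨e1, e2⟩ | ⟨T, e1, e2⟩
  · exfalso
    subst e2
    have : G₂ = G := by
      rw [hG₂, hG]
      rcases Sym2.eq_iff.mp e1 with ⟨rfl, rfl⟩ | ⟨rfl, rfl⟩
      · rfl
      · rw [Multiset.cons_swap, Sym2.eq_swap (a := v) (b := u), Sym2.eq_swap (a := u) (b := x)]
    have := hmin m (this ▸ hr')
    omega
  · subst e1 e2
    have hstep : AnyStep (s(u, p) ::ₘ s(q, v) ::ₘ s(x, u) ::ₘ T) G₂ := by
      refine ⟨q, v, x, u, s(u, p) ::ₘ T, ?_, ?_⟩
      · simp only [← Multiset.singleton_add]; abel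
      · rw [hG₂, Sym2.eq_swap (a := u) (b := q)]
        simp only [← Multiset.singleton_add]; abel
    refine ⟨p, q, s(u, p) ::ₘ s(q, v) ::ₘ s(x, u) ::ₘ T, ⟨s(x, u) ::ₘ T, ?_, rfl⟩,
      ⟨?_, ?_, ?_, ?_⟩, G₂, hstep, hr'⟩
    · rw [hG, Sym2.eq_swap (a := v) (b := u)]
      simp only [← Multiset.singleton_add]; abel
    · rintro rfl
      have e : s(u, v) ::ₘ s(q, v) ::ₘ s(x, u) ::ₘ T = G := by
        rw [hG, Sym2.eq_swap (a := q) (b := v)]
        simp only [← Multiset.singleton_add]; abel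
      have := hmin (m + 1) ⟨G₂, e ▸ hstep, hr'⟩
      omega
    · rintro rfl
      have e : AnyStep G G₂ := by
        refine ⟨x, u, p, v, s(u, v) ::ₘ T, ?_, ?_⟩
        · rw [hG]
          simp only [← Multiset.singleton_add]; abel
        · rw [hG₂, Sym2.eq_swap (a := v) (b := u)]
          simp only [← Multiset.singleton_add]; abel
      have := hmin (m + 1) ⟨G₂, e, hr'⟩
      omega
    · rintro rfl
      have e : G₁ = G₂ := by rw [hG₁', hG₂, Sym2.eq_swap (a := q) (b := u)]
      have := hmin (m + 1) ⟨G₂, e ▸ hGG₁, hr'⟩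
      omega
    · rintro rfl
      have e : G₁ = G₂ := by
        rw [hG₁', hG₂, Multiset.cons_swap, Sym2.eq_swap (a := p) (b := u)]
      have := hmin (m + 1) ⟨G₂, e ▸ hGG₁, hr'⟩
      omega

theorem first_step (d : ℕ) (G G' : Multiset (Sym2 V)) (hs : IsSimple G') (hG : ¬ IsSimple G)
    (hmin : ∀ m, Route AnyStep m G G' → d + 1 ≤ m) (hr : Route AnyStep (d + 1) G G') :
    ∃ G₁, AdmissibleStep G G₁ ∧ Route AnyStep d G₁ G' := by
  unfold IsSimple at hG
  push Not at hG
  obtain ⟨h, hm, hn⟩ := hG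
  obtain ⟨u, v, x, y, G₁, m, hd, hh, hsw, hr'⟩ := exchange _ G G' h hr (count_lt hs hm hn)
  obtain rfl : d = m := by omega
  subst hh
  by_cases c1 : u = y
  · subst c1
    obtain ⟨p, q, G₃, h1, h2, h3⟩ := loop_case d G G₁ G' u v x hs hmin hsw hr'
    refine ⟨G₃, ⟨v, u, p, q, h1, h2, fun hc => hn ?_⟩, h3⟩
    rw [Sym2.eq_swap]; exact hc.1
  by_cases c2 : v = x
  · subst c2
    have hsw' : Swap G G₁ v u y v := by
      obtain ⟨R, e1, e2⟩ := hsw
      refine ⟨R, ?_, ?_⟩
      · rw [e1, Sym2.eq_swap (a := v) (b := u), Sym2.eq_swap (a := y) (b := v)]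
      · rw [e2, Multiset.cons_swap, Sym2.eq_swap (a := u) (b := y)]
    obtain ⟨p, q, G₃, h1, h2, h3⟩ := loop_case d G G₁ G' v u y hs hmin hsw' hr'
    exact ⟨G₃, ⟨u, v, p, q, h1, h2, fun hc => hn hc.1⟩, h3⟩
  refine ⟨G₁, ⟨u, v, x, y, hsw, ⟨?_, c1, c2, ?_⟩, fun hc => hn hc.1⟩, hr'⟩
  · rintro rfl
    obtain ⟨R, e1, e2⟩ := hsw
    have e : G₁ = G := by
      rw [e1, e2, Sym2.eq_swap (a := v) (b := u), Sym2.eq_swap (a := y) (b := u)]
    have := hmin d (e ▸ hr')
    omega
  · rintro rfl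
    obtain ⟨R, e1, e2⟩ := hsw
    have e : G₁ = G := by
      rw [e1, e2, Multiset.cons_swap, Sym2.eq_swap (a := v) (b := u), Sym2.eq_swap (a := v) (b := x)]
    have := hmin d (e ▸ hr')
    omega

theorem any_of_admissible {G G' : Multiset (Sym2 V)} (h : AdmissibleStep G G') :
    AnyStep G G' := by
  obtain ⟨a, b, c, d, h, _⟩ := h
  exact ⟨a, b, c, d, h⟩

theorem admissible_route (d : ℕ) : ∀ (G G' : Multiset (Sym2 V)), IsSimple G' →
    Route AnyStep d G G' →
    (∀ m G'', IsSimple G'' → Route AnyStep m G G'' → d ≤ m) → Route AdmissibleStep d G G' := by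
  induction d with
  | zero => intro G G' _ hr _; exact hr
  | succ d ih =>
    intro G G' hs hr hmin
    have hG : ¬ IsSimple G := by
      intro h
      have := hmin 0 G h rfl
      omega
    obtain ⟨G₁, h1, h2⟩ := first_step d G G' hs hG (fun m hm => hmin m G' hs hm) hr
    refine ⟨G₁, h1, ih G₁ G' hs h2 ?_⟩
    intro m G'' hs'' hm
    have := hmin (m + 1) G'' hs'' ⟨G₁, any_of_admissible h1, hm⟩
    omega

theorem degree_cons (e : Sym2 V) (R : Multiset (Sym2 V)) (v : V) :
    degree (e ::ₘ R) v = e.toMultiset.count v + degree R v := by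
  simp [degree]

theorem count_pair (a b v : V) :
    (s(a, b) : Sym2 V).toMultiset.count v = (if v = a then 1 else 0) + (if v = b then 1 else 0) := by
  have : (s(a, b) : Sym2 V).toMultiset = a ::ₘ {b} := rfl
  rw [this, Multiset.count_cons, Multiset.count_singleton, add_comm]

theorem exists_edge (G : Multiset (Sym2 V)) (v : V) (h : 0 < degree G v) :
    ∃ x R, G = s(v, x) ::ₘ R := by
  induction G using Multiset.induction_on with
  | empty => simp [degree] at h
  | cons e R ih =>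
    by_cases hv : v ∈ e
    · obtain ⟨x, rfl⟩ := Sym2.mem_iff_exists.mp hv
      exact ⟨x, R, rfl⟩
    · rw [degree_cons, Multiset.count_eq_zero_of_notMem (by simpa using hv), zero_add] at h
      obtain ⟨x, R', e'⟩ := ih h
      exact ⟨x, e ::ₘ R', by rw [e', Multiset.cons_swap]⟩

omit [DecidableEq V] in
theorem route_cons (e : Sym2 V) (n : ℕ) : ∀ (G G' : Multiset (Sym2 V)),
    Route AnyStep n G G' → Route AnyStep n (e ::ₘ G) (e ::ₘ G') := by
  induction n with
  | zero => intro G G' h; exact congrArg _ h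
  | succ n ih =>
    rintro G G' ⟨G₁, ⟨a, b, c, d, R, h1, h2⟩, hr⟩
    refine ⟨e ::ₘ G₁, ⟨a, b, c, d, e ::ₘ R, ?_, ?_⟩, ih _ _ hr⟩
    · rw [h1]; simp only [← Multiset.singleton_add]; abel
    · rw [h2]; simp only [← Multiset.singleton_add]; abel

theorem connected (G' : Multiset (Sym2 V)) : ∀ G : Multiset (Sym2 V),
    (∀ v, degree G v = degree G' v) → ∃ n, Route AnyStep n G G' := by
  induction G' using Multiset.induction_on with
  | empty =>
    intro G h
    refine ⟨0, ?_⟩
    show G = 0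
    by_contra hne
    obtain ⟨e, he⟩ := Multiset.exists_mem_of_ne_zero hne
    obtain ⟨R, rfl⟩ := Multiset.exists_cons_of_mem he
    induction e using Sym2.ind with
    | h a b =>
      have := h a
      rw [degree_cons, count_pair] at this
      simp [degree] at this
  | cons e R' ih =>
    intro G h
    induction e using Sym2.ind with
    | h a b =>
      have ha : 0 < degree G a := by
        rw [h a, degree_cons, count_pair]; simp
      obtain ⟨x, R, rfl⟩ := exists_edge G a ha
      by_cases hx : x = b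
      · subst hx
        obtain ⟨n, hn⟩ := ih R (fun v => by
          have := h v
          rw [degree_cons, degree_cons] at this
          omega)
        exact ⟨n, route_cons _ n _ _ hn⟩
      · have hb : 0 < degree R b := by
          have := h b
          rw [degree_cons, degree_cons, count_pair, count_pair, if_neg (Ne.symm hx), if_pos rfl] at this
          omega
        obtain ⟨y, T, rfl⟩ := exists_edge R b hb
        obtain ⟨n, hn⟩ := ih (s(y, x) ::ₘ T) (fun v => by
          have := h v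
          simp only [degree_cons, count_pair] at this ⊢
          omega)
        refine ⟨n + 1, s(a, b) ::ₘ s(y, x) ::ₘ T, ⟨x, a, b, y, T, ?_, rfl⟩, route_cons _ n _ _ hn⟩
        rw [Sym2.eq_swap (a := x) (b := a)]

theorem exists_simple [Fintype V] (G : Multiset (Sym2 V)) (hG : GraphicalDegrees G) :
    ∃ G' : Multiset (Sym2 V), IsSimple G' ∧ ∀ v, degree G v = degree G' v := by
  classical
  obtain ⟨W, _, H, _, hH⟩ := hG
  have hfib : ∀ c : ℕ, Nonempty ({v : V // degree G v = c} ≃ {w : W // H.degree w = c}) := by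
    intro c
    apply Fintype.card_eq.mp
    have := congrArg (Multiset.count c) hH
    rw [Multiset.count_map, Multiset.count_map] at this
    rw [Fintype.card_subtype, Fintype.card_subtype]
    simp only [Finset.card_def, Finset.filter_val]
    simp only [eq_comm (a := c)] at this
    exact this.symm
  let e : V ≃ W := Equiv.ofFiberEquiv (f := degree G) (g := fun w => H.degree w)
    (fun c => (hfib c).some)
  have he : ∀ v, H.degree (e v) = degree G v := fun v =>
    Equiv.ofFiberEquiv_map (f := degree G) (g := fun w => H.degree w) (fun c => (hfib c).some) v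
  let K : SimpleGraph V := H.comap e
  have hK : ∀ v, K.degree v = H.degree (e v) := by
    intro v
    exact ((SimpleGraph.Iso.comap e H).degree_eq v).symm
  refine ⟨K.edgeFinset.val, ?_, ?_⟩
  · intro x hx
    refine ⟨K.not_isDiag_of_mem_edgeSet (SimpleGraph.mem_edgeFinset.mp hx), ?_⟩
    exact Multiset.count_eq_one_of_mem K.edgeFinset.nodup hx
  · intro v
    rw [← he, ← hK, ← SimpleGraph.card_incidenceFinset_eq_degree,
      SimpleGraph.incidenceFinset_eq_filter, Finset.card_filter]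
    show _ = ∑ x ∈ K.edgeFinset, x.toMultiset.count v
    apply Finset.sum_congr rfl
    intro x hx
    have hd := K.not_isDiag_of_mem_edgeSet (SimpleGraph.mem_edgeFinset.mp hx)
    induction x using Sym2.ind with
    | h a b =>
      have hab : a ≠ b := by simpa using hd
      rw [count_pair]
      by_cases h1 : v = a
      · subst h1; simp [hab]
      · by_cases h2 : v = b
        · subst h2; simp [h1]
        · simp [h1, h2]

theorem result (V : Type) [Fintype V] [DecidableEq V] (G : Multiset (Sym2 V))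
    (hG : GraphicalDegrees G) :
    ∃ (n : ℕ) (G' : Multiset (Sym2 V)), IsSimple G' ∧ Route AdmissibleStep n G G' ∧
      ∀ (m : ℕ) (G'' : Multiset (Sym2 V)), IsSimple G'' → Route AnyStep m G G'' → n ≤ m := by
  classical
  obtain ⟨G₀, hs, hd⟩ := exists_simple G hG
  obtain ⟨n₀, hn₀⟩ := connected G₀ G hd
  have hex : ∃ n, ∃ G', IsSimple G' ∧ Route AnyStep n G G' := ⟨n₀, G₀, hs, hn₀⟩
  obtain ⟨G', hs', hr'⟩ := Nat.find_spec hex
  have hmin : ∀ m G'', IsSimple G'' → Route AnyStep m G G'' → Nat.find hex ≤ m :=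
    fun m G'' h1 h2 => Nat.find_min' hex ⟨G'', h1, h2⟩
  exact ⟨Nat.find hex, G', hs', admissible_route _ G G' hs' hr' hmin, hmin⟩

end Pool.Agent.Results.MP_742338_co.AdmissibleShortest
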